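import Mathlib

/-!
# Rational points of the middle-third Cantor set: `N_j = O(3^{(1+ε)j})`

`N_j` is the number of reduced fractions in the middle-third Cantor set with denominator in
`[3^j, 3^{j+1})`.  We prove `N_j ≤ C_ς 2^{ς j}` for every `ς > log 3 / log 2 = 1.58…`; in
particular there is an admissible `ς < 2`.

Idea of the proof.  For `h(x) = 4 cos 2πx - 3 cos 4πx` the sum `F_S(x) = ∑_{s<S} h(3^s x)` is at
least `S - 2` on the Cantor set, while (by a martingale argument along `x ↦ 3x`) its moments with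
respect to Lebesgue measure are those of a sum of `S` independent bounded variables.  For each
denominator `q`, the sum of `F_S(p/q)^{2k}` over all `p mod q` is `q` times the sum of the
Fourier coefficients of `F_S^{2k}` at the multiples of `q`; summing over `q` in `[3^j, 3^{j+1})`,
the nonzero frequencies only contribute through the divisor function.  With `k` a small and `S` a
large multiple of `j` this gives the bound.
-/

namespace Pool.Agent.Results.MP_0581eb_nt.CantorCount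

open Finset Real

/-- `N_j`: the number of pairs `(p, q)` of natural numbers with `p < q`, `gcd(p, q) = 1`,
`3^j ≤ q < 3^{j+1}` and `p / q` in the middle-third Cantor set `K` (Mathlib's `cantorSet`). -/
noncomputable def N (j : ℕ) : ℕ :=
  Set.ncard {pq : ℕ × ℕ | pq.1 < pq.2 ∧ Nat.Coprime pq.1 pq.2 ∧ 3 ^ j ≤ pq.2 ∧
    pq.2 < 3 ^ (j + 1) ∧ (pq.1 : ℝ) / (pq.2 : ℝ) ∈ cantorSet}

/-- Divisor bound: for every `δ > 0` there is `C` with `τ(n) ≤ C n^δ`. -/
lemma divisor_bound (δ : ℝ) (hδ : 0 < δ) :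
    ∃ C : ℝ, 1 ≤ C ∧ ∀ n : ℕ, n ≠ 0 → (n.divisors.card : ℝ) ≤ C * (n : ℝ) ^ δ := by
  -- a bound for small primes
  obtain ⟨B, hB1, hB⟩ : ∃ B : ℝ, 1 ≤ B ∧ ∀ a : ℕ, ((a : ℝ) + 1) ≤ B * (2 : ℝ) ^ (δ * a) := by
    have hl : 0 < δ * Real.log 2 := mul_pos hδ (Real.log_pos one_lt_two)
    refine ⟨1 + 1 / (δ * Real.log 2), ?_, ?_⟩
    · have : 0 ≤ 1 / (δ * Real.log 2) := by positivity
      linarith
    · intro a
      have h1 : (2 : ℝ) ^ (δ * a) = Real.exp (δ * Real.log 2 * a) := by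
        rw [Real.rpow_def_of_pos two_pos]; congr 1; ring
      have h2 := Real.add_one_le_exp (δ * Real.log 2 * a)
      rw [h1]
      have h3 : (a : ℝ) + 1 ≤ (1 + 1 / (δ * Real.log 2)) * (δ * Real.log 2 * a + 1) := by
        have h4 : (1 + 1 / (δ * Real.log 2)) * (δ * Real.log 2 * a + 1) =
            δ * Real.log 2 * a + 1 + a + 1 / (δ * Real.log 2) := by field_simp; ring
        rw [h4]
        have : 0 ≤ δ * Real.log 2 * a := by positivity
        have : 0 ≤ 1 / (δ * Real.log 2) := by positivity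
        linarith
      refine h3.trans ?_
      have : 0 ≤ 1 + 1 / (δ * Real.log 2) := by positivity
      exact mul_le_mul_of_nonneg_left h2 this
  obtain ⟨P, hP⟩ : ∃ P : ℕ, (2 : ℝ) ^ (1 / δ) ≤ P := exists_nat_ge _
  refine ⟨B ^ P, one_le_pow₀ hB1, ?_⟩
  intro n hn
  have key : ∀ p ∈ n.primeFactors, ((n.factorization p : ℝ) + 1) ≤
      (if p < P then B else 1) * ((p : ℝ) ^ (n.factorization p)) ^ δ := by
    intro p hp
    have hpp : p.Prime := Nat.prime_of_mem_primeFactors hp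
    have hp2 : (2 : ℝ) ≤ p := by exact_mod_cast hpp.two_le
    have hpow : ((p : ℝ) ^ (n.factorization p)) ^ δ = (p : ℝ) ^ (δ * n.factorization p) := by
      rw [← Real.rpow_natCast, ← Real.rpow_mul (by linarith)]
      congr 1; ring
    rw [hpow]
    split_ifs with h
    · refine (hB _).trans ?_
      apply mul_le_mul_of_nonneg_left _ (by linarith)
      exact Real.rpow_le_rpow (by norm_num) hp2 (by positivity)
    · have h1 : (2 : ℝ) ^ (1 / δ) ≤ p := hP.trans (by exact_mod_cast not_lt.mp h)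
      have h2 : (2 : ℝ) ≤ (p : ℝ) ^ δ := by
        have := Real.rpow_le_rpow (by positivity) h1 hδ.le
        rwa [← Real.rpow_mul (by norm_num), one_div_mul_cancel hδ.ne', Real.rpow_one] at this
      rw [one_mul, Real.rpow_mul (by linarith), Real.rpow_natCast]
      have h3 : ((n.factorization p : ℝ) + 1) ≤ 2 ^ (n.factorization p) := by
        have := Nat.lt_two_pow_self (n := n.factorization p)
        exact_mod_cast this
      exact h3.trans (pow_le_pow_left₀ (by norm_num) h2 _)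
  have h1 : (n.divisors.card : ℝ) = ∏ p ∈ n.primeFactors, ((n.factorization p : ℝ) + 1) := by
    rw [Nat.card_divisors hn]; push_cast; rfl
  have h2 : (n : ℝ) ^ δ = ∏ p ∈ n.primeFactors, ((p : ℝ) ^ (n.factorization p)) ^ δ := by
    rw [Real.finsetProd_rpow _ _ (fun p _ => by positivity)]
    congr 1
    have := Nat.prod_factorization_pow_eq_self hn
    conv_lhs => rw [← this]
    rw [Finsupp.prod, Nat.support_factorization]
    push_cast
    rfl
  rw [h1, h2]
  refine (Finset.prod_le_prod (fun p _ => by positivity) key).trans ?_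
  rw [Finset.prod_mul_distrib]
  apply mul_le_mul_of_nonneg_right _ (Finset.prod_nonneg (fun p _ => by positivity))
  rw [Finset.prod_ite, Finset.prod_const, Finset.prod_const_one, mul_one]
  apply pow_le_pow_right₀ hB1
  calc (n.primeFactors.filter (fun p => p < P)).card ≤ (Finset.range P).card :=
        Finset.card_le_card (fun p hp => by simp at hp; simpa using hp.2)
    _ = P := Finset.card_range P

/-- The function `4 cos(2πx) - 3 cos(4πx)`. -/
noncomputable def h (x : ℝ) : ℝ := 4 * cos (2 * π * x) - 3 * cos (2 * (2 * π * x))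

/-- Birkhoff sums of `h` for the map `x ↦ 3x`. -/
noncomputable def F (S : ℕ) (x : ℝ) : ℝ := ∑ s ∈ range S, h (3 ^ s * x)

lemma cos_ge_of_mem {y : ℝ} (hy : y ∈ cantorSet) : -(1 / 2) ≤ cos (2 * π * y) := by
  have hpi := Real.pi_pos
  have h01 := cantorSet_subset_unitInterval hy
  have hhalf : cos (2 * π / 3) = -(1 / 2) := by
    have : 2 * π / 3 = π - π / 3 := by ring
    rw [this, Real.cos_pi_sub, Real.cos_pi_div_three]
  rw [cantorSet_eq_union_halves] at hy
  rcases hy with ⟨z, hz, rfl⟩ | ⟨z, hz, rfl⟩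
  · have hz01 := cantorSet_subset_unitInterval hz
    rw [← hhalf]
    apply Real.cos_le_cos_of_nonneg_of_le_pi
    · have := hz01.1; positivity
    · linarith
    · have := hz01.2; nlinarith
  · have hz01 := cantorSet_subset_unitInterval hz
    rw [← hhalf]
    have : cos (2 * π * ((2 + z) / 3)) = cos (2 * π * ((1 - z) / 3)) := by
      have h1 : 2 * π * ((2 + z) / 3) = 2 * π - 2 * π * ((1 - z) / 3) := by ring
      rw [h1, Real.cos_two_pi_sub]
    rw [this]
    apply Real.cos_le_cos_of_nonneg_of_le_pi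
    · have := hz01.2
      have : 0 ≤ 1 - z := by linarith
      positivity
    · linarith
    · have := hz01.1; nlinarith

lemma orbit_mem {x : ℝ} (hx : x ∈ cantorSet) (s : ℕ) :
    ∃ y ∈ cantorSet, ∃ n : ℤ, 3 ^ s * x = y + n := by
  induction s with
  | zero => exact ⟨x, hx, 0, by simp⟩
  | succ s ih =>
    obtain ⟨y, hy, n, hn⟩ := ih
    rw [cantorSet_eq_union_halves] at hy
    rcases hy with ⟨z, hz, rfl⟩ | ⟨z, hz, rfl⟩
    · refine ⟨z, hz, 3 * n, ?_⟩
      rw [pow_succ, mul_assoc, mul_comm (3 : ℝ) x, ← mul_assoc, hn]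
      push_cast; ring
    · refine ⟨z, hz, 3 * n + 2, ?_⟩
      rw [pow_succ, mul_assoc, mul_comm (3 : ℝ) x, ← mul_assoc, hn]
      push_cast; ring

lemma cos_orbit {x : ℝ} (hx : x ∈ cantorSet) (s : ℕ) : -(1 / 2) ≤ cos (2 * π * (3 ^ s * x)) := by
  obtain ⟨y, hy, n, hn⟩ := orbit_mem hx s
  rw [hn]
  have : cos (2 * π * (y + n)) = cos (2 * π * y) := by
    have h1 : 2 * π * (y + n) = 2 * π * y + n * (2 * π) := by ring
    rw [h1, Real.cos_add_int_mul_two_pi]
  rw [this]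
  exact cos_ge_of_mem hy

lemma h_ge (θ : ℝ) (hθ : -(1 / 2) ≤ cos θ) :
    1 + cos θ - cos (3 * θ) ≤ 4 * cos θ - 3 * cos (2 * θ) := by
  rw [Real.cos_two_mul, Real.cos_three_mul]
  nlinarith [mul_nonneg (sq_nonneg (cos θ - 1)) (by linarith : (0 : ℝ) ≤ 2 * cos θ + 1)]

lemma F_ge {x : ℝ} (hx : x ∈ cantorSet) (S : ℕ) : (S : ℝ) - 2 ≤ F S x := by
  have key : ∀ S : ℕ, (S : ℝ) + cos (2 * π * x) - cos (2 * π * (3 ^ S * x)) ≤ F S x := by
    intro S
    induction S with
    | zero => simp [F]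
    | succ S ih =>
      rw [F, Finset.sum_range_succ]
      have h1 := h_ge (2 * π * (3 ^ S * x)) (cos_orbit hx S)
      have h2 : 3 * (2 * π * (3 ^ S * x)) = 2 * π * (3 ^ (S + 1) * x) := by ring
      rw [h2] at h1
      have h3 : h (3 ^ S * x) = 4 * cos (2 * π * (3 ^ S * x)) -
          3 * cos (2 * (2 * π * (3 ^ S * x))) := rfl
      rw [F] at ih
      push_cast
      linarith
  have h1 := key S
  have h2 := Real.neg_one_le_cos (2 * π * x)
  have h3 := Real.cos_le_one (2 * π * (3 ^ S * x))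
  linarith

/-! ### Expansion into characters -/

/-- Frequencies. -/
def fr : Fin 4 → ℤ := ![1, -1, 2, -2]

/-- Coefficients. -/
noncomputable def co : Fin 4 → ℝ := ![2, 2, -(3 / 2), -(3 / 2)]

/-- The frequency of a tuple. -/
def xi {S n : ℕ} (t : Fin n → Fin S × Fin 4) : ℤ := ∑ i, fr (t i).2 * 3 ^ ((t i).1 : ℕ)

/-- The coefficient of a tuple. -/
noncomputable def cf {S n : ℕ} (t : Fin n → Fin S × Fin 4) : ℝ := ∏ i, co (t i).2

lemma h_exp (x : ℝ) : (h x : ℂ) = ∑ i : Fin 4, (co i : ℂ) *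
    Complex.exp (2 * π * Complex.I * (fr i * x)) := by
  simp only [Fin.sum_univ_four, co, fr, h]
  push_cast
  rw [Complex.cos, Complex.cos]
  simp
  ring_nf

lemma F_exp (S : ℕ) (x : ℝ) : (F S x : ℂ) = ∑ a : Fin S × Fin 4, (co a.2 : ℂ) *
    Complex.exp (2 * π * Complex.I * ((fr a.2 * 3 ^ (a.1 : ℕ) : ℤ) * x)) := by
  rw [Fintype.sum_prod_type, F, ← Fin.sum_univ_eq_sum_range (fun s => h (3 ^ s * x))]
  push_cast
  refine Finset.sum_congr rfl (fun s _ => ?_)
  rw [h_exp]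
  refine Finset.sum_congr rfl (fun i _ => ?_)
  push_cast
  ring_nf

lemma F_pow (S n : ℕ) (x : ℝ) : ((F S x : ℂ)) ^ n = ∑ t : Fin n → Fin S × Fin 4,
    (cf t : ℂ) * Complex.exp (2 * π * Complex.I * (xi t * x)) := by
  rw [F_exp, Fintype.sum_pow]
  refine Finset.sum_congr rfl (fun t _ => ?_)
  rw [Finset.prod_mul_distrib, ← Complex.exp_sum, cf, xi]
  push_cast
  congr 2
  rw [Finset.sum_mul, Finset.mul_sum]

lemma char_sum (q : ℕ) (hq : 0 < q) (ξ : ℤ) :
    ∑ p ∈ range q, Complex.exp (2 * π * Complex.I * (ξ * ((p / q : ℝ) : ℂ))) =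
      if (q : ℤ) ∣ ξ then (q : ℂ) else 0 := by
  have hq' : (q : ℂ) ≠ 0 := by exact_mod_cast hq.ne'
  have hterm : ∀ p : ℕ, Complex.exp (2 * π * Complex.I * (ξ * ((p / q : ℝ) : ℂ))) =
      (Complex.exp (2 * π * Complex.I * (ξ / q))) ^ p := by
    intro p
    rw [← Complex.exp_nat_mul]
    congr 1
    push_cast
    field_simp
  simp only [hterm]
  split_ifs with hdiv
  · obtain ⟨m, rfl⟩ := hdiv
    have : Complex.exp (2 * π * Complex.I * (((q : ℤ) * m : ℤ) / q)) = 1 := by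
      rw [Complex.exp_eq_one_iff]
      refine ⟨m, ?_⟩
      push_cast
      field_simp
    rw [this]
    simp
  · have hne : Complex.exp (2 * π * Complex.I * (ξ / q)) ≠ 1 := by
      intro h1
      rw [Complex.exp_eq_one_iff] at h1
      obtain ⟨m, hm⟩ := h1
      apply hdiv
      refine ⟨m, ?_⟩
      have h2 : (ξ : ℂ) / q = m := by
        have hpi : (2 * π * Complex.I : ℂ) ≠ 0 := Complex.two_pi_I_ne_zero
        have : 2 * π * Complex.I * ((ξ : ℂ) / q) = 2 * π * Complex.I * m := by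
          rw [hm]; ring
        exact mul_left_cancel₀ hpi this
      have h3 : (ξ : ℂ) = q * m := by
        rw [div_eq_iff hq'] at h2
        rw [h2]; ring
      exact_mod_cast h3
    rw [geom_sum_eq hne]
    have : Complex.exp (2 * π * Complex.I * (ξ / q)) ^ q = 1 := by
      rw [← Complex.exp_nat_mul, Complex.exp_eq_one_iff]
      refine ⟨ξ, ?_⟩
      field_simp
    rw [this, sub_self, zero_div]

lemma moment_eq (S n q : ℕ) (hq : 0 < q) :
    ∑ p ∈ range q, (F S (p / q)) ^ n =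
      (q : ℝ) * ∑ t : Fin n → Fin S × Fin 4, if (q : ℤ) ∣ xi t then cf t else 0 := by
  have : ((∑ p ∈ range q, (F S (p / q)) ^ n : ℝ) : ℂ) =
      ((q : ℝ) * ∑ t : Fin n → Fin S × Fin 4, if (q : ℤ) ∣ xi t then cf t else 0 : ℝ) := by
    push_cast
    simp only [F_pow]
    rw [Finset.sum_comm, Finset.mul_sum]
    refine Finset.sum_congr rfl (fun t _ => ?_)
    rw [← Finset.mul_sum, char_sum q hq]
    split_ifs <;> push_cast <;> ring
  exact_mod_cast this

/-! ### The moment bound -/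

lemma h_add_int (x : ℝ) (n : ℤ) : h (x + n) = h x := by
  unfold h
  have h1 : 2 * π * (x + n) = 2 * π * x + n * (2 * π) := by ring
  have h2 : 2 * (2 * π * (x + n)) = 2 * (2 * π * x) + (2 * n : ℤ) * (2 * π) := by push_cast; ring
  rw [h2, h1, Real.cos_add_int_mul_two_pi, Real.cos_add_int_mul_two_pi]

lemma F_add_int (S : ℕ) (x : ℝ) (n : ℤ) : F S (x + n) = F S x := by
  unfold F
  refine Finset.sum_congr rfl (fun s _ => ?_)
  have : (3 : ℝ) ^ s * (x + n) = 3 ^ s * x + (3 ^ s * n : ℤ) := by push_cast; ring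
  rw [this, h_add_int]

lemma F_succ (S : ℕ) (x : ℝ) : F (S + 1) x = h x + F S (3 * x) := by
  unfold F
  rw [Finset.sum_range_succ']
  rw [add_comm]
  congr 1
  · simp
  · refine Finset.sum_congr rfl (fun s _ => ?_)
    rw [pow_succ, mul_assoc]

lemma abs_h_le (x : ℝ) : |h x| ≤ 7 := by
  unfold h
  have h1 := Real.neg_one_le_cos (2 * π * x)
  have h2 := Real.cos_le_one (2 * π * x)
  have h3 := Real.neg_one_le_cos (2 * (2 * π * x))
  have h4 := Real.cos_le_one (2 * (2 * π * x))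
  rw [abs_le]
  constructor <;> linarith

lemma cos_two_thirds : cos (2 * π / 3) = -(1 / 2) := by
  have : 2 * π / 3 = π - π / 3 := by ring
  rw [this, Real.cos_pi_sub, Real.cos_pi_div_three]

lemma cos_sum_three (A : ℝ) : cos A + cos (A + 2 * π / 3) + cos (A + 2 * (2 * π / 3)) = 0 := by
  rw [Real.cos_add, Real.cos_add, Real.cos_two_mul, Real.sin_two_mul, cos_two_thirds]
  ring

lemma h_sum_three (y : ℝ) : h (y / 3) + h ((y + 1) / 3) + h ((y + 2) / 3) = 0 := by
  unfold h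
  have h1 := cos_sum_three (2 * π * (y / 3))
  have h2 := cos_sum_three (2 * (2 * π * (y / 3)))
  have e1 : 2 * π * ((y + 1) / 3) = 2 * π * (y / 3) + 2 * π / 3 := by ring
  have e2 : 2 * π * ((y + 2) / 3) = 2 * π * (y / 3) + 2 * (2 * π / 3) := by ring
  have e3 : 2 * (2 * π * ((y + 1) / 3)) = 2 * (2 * π * (y / 3)) + 2 * (2 * π / 3) := by ring
  have e4 : cos (2 * (2 * π * ((y + 2) / 3))) = cos (2 * (2 * π * (y / 3)) + 2 * π / 3) := by
    have : 2 * (2 * π * ((y + 2) / 3)) = 2 * (2 * π * (y / 3)) + 2 * π / 3 + 2 * π := by ring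
    rw [this, Real.cos_add_two_pi]
  rw [e4, e3, e2, e1]
  linarith

lemma exp_three (l : ℝ) (hl : |l| ≤ 1 / 7) (y : ℝ) :
    exp (l * h (y / 3)) + exp (l * h ((y + 1) / 3)) + exp (l * h ((y + 2) / 3)) ≤
      3 * exp (49 * l ^ 2) := by
  have key : ∀ z : ℝ, exp (l * h z) ≤ 1 + l * h z + 49 * l ^ 2 := by
    intro z
    have h1 := abs_h_le z
    have h2 : |l * h z| ≤ 1 := by
      rw [abs_mul]
      calc |l| * |h z| ≤ 1 / 7 * 7 := mul_le_mul hl h1 (abs_nonneg _) (by norm_num)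
        _ = 1 := by norm_num
    have h3 := Real.abs_exp_sub_one_sub_id_le h2
    have h4 := (abs_le.mp h3).2
    have h5 : (l * h z) ^ 2 ≤ 49 * l ^ 2 := by
      rw [mul_pow]
      have : (h z) ^ 2 ≤ 49 := by
        rw [← sq_abs]; nlinarith [abs_nonneg (h z)]
      nlinarith [sq_nonneg l]
    linarith
  have h1 := key (y / 3)
  have h2 := key ((y + 1) / 3)
  have h3 := key ((y + 2) / 3)
  have h4 := h_sum_three y
  have h5 := Real.add_one_le_exp (49 * l ^ 2)
  have h6 : l * h (y / 3) + l * h ((y + 1) / 3) + l * h ((y + 2) / 3) = 0 := by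
    rw [← mul_add, ← mul_add, h4, mul_zero]
  linarith

lemma sum_pow_three (n : ℕ) (f : ℕ → ℝ) : ∑ p ∈ range (3 ^ (n + 1)), f p =
    ∑ p ∈ range (3 ^ n), (f p + f (3 ^ n + p) + f (3 ^ n + 3 ^ n + p)) := by
  have : 3 ^ (n + 1) = 3 ^ n + 3 ^ n + 3 ^ n := by ring
  rw [this, Finset.sum_range_add, Finset.sum_range_add, Finset.sum_add_distrib,
    Finset.sum_add_distrib]

lemma exp_moment (l : ℝ) (hl : |l| ≤ 1 / 7) (S : ℕ) : ∀ n : ℕ, S ≤ n →
    ∑ p ∈ range (3 ^ n), exp (l * F S (p / (3 : ℝ) ^ n)) ≤ 3 ^ n * exp (49 * l ^ 2 * S) := by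
  induction S with
  | zero => intro n _; simp [F]
  | succ S ih =>
    intro n hn
    obtain ⟨n, rfl⟩ : ∃ n', n = n' + 1 := ⟨n - 1, by omega⟩
    rw [sum_pow_three]
    have hstep : ∀ p : ℕ, exp (l * F (S + 1) ((p : ℝ) / 3 ^ (n + 1))) +
        exp (l * F (S + 1) (((3 ^ n + p : ℕ) : ℝ) / 3 ^ (n + 1))) +
        exp (l * F (S + 1) (((3 ^ n + 3 ^ n + p : ℕ) : ℝ) / 3 ^ (n + 1))) ≤
        3 * exp (49 * l ^ 2) * exp (l * F S ((p : ℝ) / 3 ^ n)) := by
      intro p
      set y : ℝ := (p : ℝ) / 3 ^ n with hy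
      have h3n : (3 : ℝ) ^ n ≠ 0 := by positivity
      have e0 : (p : ℝ) / 3 ^ (n + 1) = y / 3 := by rw [hy, pow_succ]; field_simp
      have e1 : ((3 ^ n + p : ℕ) : ℝ) / 3 ^ (n + 1) = (y + 1) / 3 := by
        rw [hy, pow_succ]; push_cast; field_simp; ring
      have e2 : ((3 ^ n + 3 ^ n + p : ℕ) : ℝ) / 3 ^ (n + 1) = (y + 2) / 3 := by
        rw [hy, pow_succ]; push_cast; field_simp; ring
      have f0 : F S (3 * (y / 3)) = F S y := by congr 1; ring
      have f1 : F S (3 * ((y + 1) / 3)) = F S y := by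
        have : 3 * ((y + 1) / 3) = y + (1 : ℤ) := by push_cast; ring
        rw [this, F_add_int]
      have f2 : F S (3 * ((y + 2) / 3)) = F S y := by
        have : 3 * ((y + 2) / 3) = y + (2 : ℤ) := by push_cast; ring
        rw [this, F_add_int]
      rw [e0, e1, e2, F_succ, F_succ, F_succ, f0, f1, f2, mul_add, mul_add, mul_add,
        Real.exp_add, Real.exp_add, Real.exp_add, ← add_mul, ← add_mul]
      exact mul_le_mul_of_nonneg_right (exp_three l hl y) (Real.exp_pos _).le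
    calc _ ≤ ∑ p ∈ range (3 ^ n), 3 * exp (49 * l ^ 2) * exp (l * F S ((p : ℝ) / 3 ^ n)) :=
          Finset.sum_le_sum (fun p _ => hstep p)
      _ = 3 * exp (49 * l ^ 2) * ∑ p ∈ range (3 ^ n), exp (l * F S ((p : ℝ) / 3 ^ n)) := by
          rw [Finset.mul_sum]
      _ ≤ 3 * exp (49 * l ^ 2) * (3 ^ n * exp (49 * l ^ 2 * S)) :=
          mul_le_mul_of_nonneg_left (ih n (by omega)) (by positivity)
      _ = 3 ^ (n + 1) * exp (49 * l ^ 2 * ((S + 1 : ℕ) : ℝ)) := by
          push_cast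
          have : 49 * l ^ 2 * ((S : ℝ) + 1) = 49 * l ^ 2 + 49 * l ^ 2 * S := by ring
          rw [this, Real.exp_add]; ring

lemma pow_le_exp (y : ℝ) (k : ℕ) : y ^ (2 * k) ≤ (2 * k).factorial * (exp y + exp (-y)) := by
  have h1 := Real.pow_div_factorial_le_exp |y| (abs_nonneg y) (2 * k)
  have h2 : |y| ^ (2 * k) = y ^ (2 * k) := by
    rw [pow_mul, sq_abs, ← pow_mul]
  rw [h2] at h1
  have hf : (0 : ℝ) < (2 * k).factorial := by exact_mod_cast Nat.factorial_pos _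
  rw [div_le_iff₀ hf] at h1
  have h3 : exp |y| ≤ exp y + exp (-y) := by
    rcases le_total 0 y with h | h
    · rw [abs_of_nonneg h]; linarith [Real.exp_pos (-y)]
    · rw [abs_of_nonpos h]; linarith [Real.exp_pos y]
  calc y ^ (2 * k) ≤ exp |y| * (2 * k).factorial := h1
    _ ≤ (exp y + exp (-y)) * (2 * k).factorial := mul_le_mul_of_nonneg_right h3 hf.le
    _ = _ := by ring

lemma power_moment (l : ℝ) (hl0 : 0 < l) (hl : l ≤ 1 / 7) (S k n : ℕ) (hn : S ≤ n) :
    ∑ p ∈ range (3 ^ n), (F S (p / (3 : ℝ) ^ n)) ^ (2 * k) ≤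
      3 ^ n * (2 * (2 * k).factorial * (1 / l) ^ (2 * k) * exp (49 * l ^ 2 * S)) := by
  have h1 := exp_moment l (by rw [abs_of_pos hl0]; exact hl) S n hn
  have h2 := exp_moment (-l) (by rw [abs_neg, abs_of_pos hl0]; exact hl) S n hn
  have hf : (0 : ℝ) < (2 * k).factorial := by exact_mod_cast Nat.factorial_pos _
  have key : ∀ z : ℝ, z ^ (2 * k) ≤ (1 / l) ^ (2 * k) * ((2 * k).factorial *
      (exp (l * z) + exp (-l * z))) := by
    intro z
    have h3 := pow_le_exp (l * z) k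
    rw [← neg_mul] at h3
    calc z ^ (2 * k) = (1 / l) ^ (2 * k) * (l * z) ^ (2 * k) := by
          rw [← mul_pow]; congr 1; field_simp
      _ ≤ _ := mul_le_mul_of_nonneg_left h3 (by positivity)
  calc _ ≤ ∑ p ∈ range (3 ^ n), (1 / l) ^ (2 * k) * ((2 * k).factorial *
        (exp (l * F S (p / (3 : ℝ) ^ n)) + exp (-l * F S (p / (3 : ℝ) ^ n)))) :=
        Finset.sum_le_sum (fun p _ => key _)
    _ = (1 / l) ^ (2 * k) * (2 * k).factorial * (∑ p ∈ range (3 ^ n),
        exp (l * F S (p / (3 : ℝ) ^ n)) + ∑ p ∈ range (3 ^ n),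
        exp (-l * F S (p / (3 : ℝ) ^ n))) := by
        rw [← Finset.sum_add_distrib, Finset.mul_sum]
        refine Finset.sum_congr rfl (fun p _ => by ring)
    _ ≤ (1 / l) ^ (2 * k) * (2 * k).factorial * (3 ^ n * exp (49 * l ^ 2 * S) +
        3 ^ n * exp (49 * (-l) ^ 2 * S)) :=
        mul_le_mul_of_nonneg_left (add_le_add h1 h2) (by positivity)
    _ = _ := by rw [neg_sq]; ring

lemma abs_fr_le (i : Fin 4) : |fr i| ≤ 2 := by
  fin_cases i <;> simp [fr]

lemma abs_xi_le {S n : ℕ} (t : Fin n → Fin S × Fin 4) : |xi t| ≤ 2 * n * 3 ^ S := by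
  unfold xi
  refine (Finset.abs_sum_le_sum_abs _ _).trans ?_
  have : ∀ i ∈ (univ : Finset (Fin n)), |fr (t i).2 * 3 ^ ((t i).1 : ℕ)| ≤ 2 * 3 ^ S := by
    intro i _
    rw [abs_mul, abs_pow]
    have h1 := abs_fr_le (t i).2
    have h2 : |(3 : ℤ)| ^ ((t i).1 : ℕ) ≤ 3 ^ S := by
      simp only [Nat.abs_ofNat]
      exact pow_le_pow_right₀ (by norm_num) (t i).1.2.le
    exact mul_le_mul h1 h2 (by positivity) (by norm_num)
  refine (Finset.sum_le_card_nsmul _ _ _ this).trans ?_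
  simp only [Finset.card_univ, Fintype.card_fin, nsmul_eq_mul]
  ring_nf
  exact le_rfl

lemma M_bound (l : ℝ) (hl0 : 0 < l) (hl : l ≤ 1 / 7) (S k : ℕ) :
    (∑ t : Fin (2 * k) → Fin S × Fin 4, if xi t = 0 then cf t else 0) ≤
      2 * (2 * k).factorial * (1 / l) ^ (2 * k) * exp (49 * l ^ 2 * S) := by
  have h1 := power_moment l hl0 hl S k (S + 4 * k) (by omega)
  have h2 := moment_eq S (2 * k) (3 ^ (S + 4 * k)) (by positivity)
  have h3 : ∀ t : Fin (2 * k) → Fin S × Fin 4,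
      (((3 ^ (S + 4 * k) : ℕ) : ℤ) ∣ xi t) ↔ xi t = 0 := by
    intro t
    constructor
    · intro hdiv
      apply Int.eq_zero_of_abs_lt_dvd hdiv
      refine (abs_xi_le t).trans_lt ?_
      push_cast
      rw [pow_add]
      have h4 : (4 * k : ℤ) < 3 ^ (4 * k) := by
        exact_mod_cast Nat.lt_pow_self (by norm_num : 1 < 3) (n := 4 * k)
      have h5 : (0 : ℤ) < 3 ^ S := by positivity
      nlinarith
    · intro h0; rw [h0]; exact dvd_zero _
  simp only [h3] at h2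
  push_cast at h2
  rw [h2] at h1
  exact le_of_mul_le_mul_left h1 (by positivity)

lemma sum_abs_cf (S n : ℕ) : ∑ t : Fin n → Fin S × Fin 4, |cf t| = (7 * S : ℝ) ^ n := by
  have h1 : ∀ t : Fin n → Fin S × Fin 4, |cf t| = ∏ i, |co (t i).2| := by
    intro t; rw [cf, Finset.abs_prod]
  simp only [h1]
  rw [← Fintype.sum_pow (fun a : Fin S × Fin 4 => |co a.2|) n]
  congr 1
  rw [Fintype.sum_prod_type]
  simp only [Fin.sum_univ_four, co, Finset.sum_const, Finset.card_univ, Fintype.card_fin]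
  simp
  rw [abs_of_pos (by norm_num : (0 : ℝ) < 3 / 2)]
  ring


/-! ### Summation over the denominators -/

lemma N_le (j : ℕ) (c : ℝ) (hc : 0 ≤ c) (f : ℝ → ℝ) (hf : ∀ x, 0 ≤ f x)
    (hK : ∀ x ∈ cantorSet, c ≤ f x) :
    c * N j ≤ ∑ q ∈ Ico (3 ^ j) (3 ^ (j + 1)), ∑ p ∈ range q, f (p / q) := by
  classical
  set A : Finset (Σ _ : ℕ, ℕ) := (Ico (3 ^ j) (3 ^ (j + 1))).sigma (fun q => range q) with hA
  set A' := A.filter (fun x => (x.2 : ℝ) / (x.1 : ℝ) ∈ cantorSet) with hA'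
  have hcard : N j ≤ A'.card := by
    unfold N
    have hsub : {pq : ℕ × ℕ | pq.1 < pq.2 ∧ Nat.Coprime pq.1 pq.2 ∧ 3 ^ j ≤ pq.2 ∧
        pq.2 < 3 ^ (j + 1) ∧ (pq.1 : ℝ) / (pq.2 : ℝ) ∈ cantorSet} ⊆
        ((A'.image (fun x => (x.2, x.1)) : Finset (ℕ × ℕ)) : Set (ℕ × ℕ)) := by
      rintro ⟨p, q⟩ ⟨h1, -, h3, h4, h5⟩
      simp only [coe_image, Set.mem_image, mem_coe]
      refine ⟨⟨q, p⟩, ?_, rfl⟩
      simp only [hA', hA, mem_filter, mem_sigma, mem_Ico, mem_range]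
      exact ⟨⟨⟨h3, h4⟩, h1⟩, h5⟩
    refine (Set.ncard_le_ncard hsub (Finset.finite_toSet _)).trans ?_
    rw [Set.ncard_coe_finset]
    exact Finset.card_image_le
  calc c * N j ≤ c * A'.card := by
        apply mul_le_mul_of_nonneg_left _ hc
        exact_mod_cast hcard
    _ = ∑ x ∈ A', c := by rw [Finset.sum_const, nsmul_eq_mul, mul_comm]
    _ ≤ ∑ x ∈ A', f ((x.2 : ℝ) / (x.1 : ℝ)) := by
        apply Finset.sum_le_sum
        intro x hx
        exact hK _ (Finset.mem_filter.mp hx).2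
    _ ≤ ∑ x ∈ A, f ((x.2 : ℝ) / (x.1 : ℝ)) :=
        Finset.sum_le_sum_of_subset_of_nonneg (Finset.filter_subset _ _) (fun x _ _ => hf _)
    _ = _ := by rw [hA, Finset.sum_sigma]

lemma main_ineq (S k j : ℕ) (hS : 2 ≤ S) (B D : ℝ)
    (hB0 : 0 ≤ B) (hD0 : 0 ≤ D)
    (hB : (∑ t : Fin (2 * k) → Fin S × Fin 4, if xi t = 0 then cf t else 0) ≤ B)
    (hD : ∀ t : Fin (2 * k) → Fin S × Fin 4, xi t ≠ 0 →
      (((xi t).natAbs.divisors.card : ℕ) : ℝ) ≤ D) :
    ((S : ℝ) - 2) ^ (2 * k) * N j ≤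
      9 * 9 ^ j * B + 3 * 3 ^ j * ((7 * S : ℝ) ^ (2 * k) * D) := by
  classical
  have hS' : (2 : ℝ) ≤ S := by exact_mod_cast hS
  have h1 := N_le j (((S : ℝ) - 2) ^ (2 * k)) (by
      apply pow_nonneg; linarith) (fun x => (F S x) ^ (2 * k))
    (fun x => by rw [pow_mul]; positivity)
    (fun x hx => pow_le_pow_left₀ (by linarith) (F_ge hx S) _)
  refine h1.trans ?_
  have h2 : ∀ q ∈ Ico (3 ^ j) (3 ^ (j + 1)), ∑ p ∈ range q, (F S ((p : ℝ) / q)) ^ (2 * k) ≤
      3 ^ (j + 1) * B + 3 ^ (j + 1) * ∑ t : Fin (2 * k) → Fin S × Fin 4,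
        (if xi t ≠ 0 ∧ (q : ℤ) ∣ xi t then |cf t| else 0) := by
    intro q hq
    rw [mem_Ico] at hq
    have hq0 : 0 < q := lt_of_lt_of_le (by positivity) hq.1
    rw [moment_eq S (2 * k) q hq0]
    have h3 : (∑ t : Fin (2 * k) → Fin S × Fin 4, if (q : ℤ) ∣ xi t then cf t else 0) ≤
        B + ∑ t : Fin (2 * k) → Fin S × Fin 4,
          (if xi t ≠ 0 ∧ (q : ℤ) ∣ xi t then |cf t| else 0) := by
      refine le_trans ?_ (add_le_add_left hB _)
      rw [← Finset.sum_add_distrib]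
      apply Finset.sum_le_sum
      intro t _
      by_cases h0 : xi t = 0
      · simp [h0]
      · by_cases h4 : (q : ℤ) ∣ xi t
        · simp [h0, h4, le_abs_self]
        · simp [h0, h4]
    have hqR : (q : ℝ) ≤ 3 ^ (j + 1) := by exact_mod_cast hq.2.le
    have h5 : (0 : ℝ) ≤ B + ∑ t : Fin (2 * k) → Fin S × Fin 4,
          (if xi t ≠ 0 ∧ (q : ℤ) ∣ xi t then |cf t| else 0) := by
      apply add_nonneg hB0
      apply Finset.sum_nonneg
      intro t _
      split_ifs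
      · exact abs_nonneg _
      · exact le_rfl
    calc _ ≤ (q : ℝ) * (B + ∑ t : Fin (2 * k) → Fin S × Fin 4,
          (if xi t ≠ 0 ∧ (q : ℤ) ∣ xi t then |cf t| else 0)) :=
          mul_le_mul_of_nonneg_left h3 (Nat.cast_nonneg _)
      _ ≤ 3 ^ (j + 1) * (B + ∑ t : Fin (2 * k) → Fin S × Fin 4,
          (if xi t ≠ 0 ∧ (q : ℤ) ∣ xi t then |cf t| else 0)) :=
          mul_le_mul_of_nonneg_right hqR h5
      _ = _ := by ring
  refine (Finset.sum_le_sum h2).trans ?_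
  rw [Finset.sum_add_distrib, ← Finset.mul_sum, ← Finset.mul_sum, Finset.sum_comm,
    Finset.sum_const, nsmul_eq_mul]
  have hcard : ((Ico (3 ^ j) (3 ^ (j + 1))).card : ℝ) ≤ 3 ^ (j + 1) := by
    rw [Nat.card_Ico]
    have : 3 ^ (j + 1) - 3 ^ j ≤ 3 ^ (j + 1) := Nat.sub_le _ _
    exact_mod_cast this
  have h6 : ∑ t : Fin (2 * k) → Fin S × Fin 4, ∑ q ∈ (Ico (3 ^ j) (3 ^ (j + 1)) : Finset ℕ),
      (if xi t ≠ 0 ∧ (q : ℤ) ∣ xi t then |cf t| else 0) ≤ (7 * S : ℝ) ^ (2 * k) * D := by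
    rw [← sum_abs_cf, Finset.sum_mul]
    apply Finset.sum_le_sum
    intro t _
    by_cases h0 : xi t = 0
    · simp only [h0, ne_eq, not_true_eq_false, false_and, if_false, Finset.sum_const_zero]
      positivity
    · have h7 : ∀ q ∈ (Ico (3 ^ j) (3 ^ (j + 1)) : Finset ℕ), (if xi t ≠ 0 ∧ (q : ℤ) ∣ xi t then |cf t| else 0) =
          if q ∈ (xi t).natAbs.divisors then |cf t| else 0 := by
        intro q _
        have : (xi t ≠ 0 ∧ (q : ℤ) ∣ xi t) ↔ q ∈ (xi t).natAbs.divisors := by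
          rw [Nat.mem_divisors]
          constructor
          · rintro ⟨h8, h9⟩
            exact ⟨Int.natCast_dvd.mp h9, Int.natAbs_ne_zero.mpr h8⟩
          · rintro ⟨h8, h9⟩
            exact ⟨h0, Int.natCast_dvd.mpr h8⟩
        simp only [this]
      rw [Finset.sum_congr rfl h7, ← Finset.sum_filter, Finset.sum_const, nsmul_eq_mul, mul_comm]
      apply mul_le_mul_of_nonneg_left _ (abs_nonneg _)
      refine le_trans ?_ (hD t h0)
      have : ((Ico (3 ^ j) (3 ^ (j + 1))).filter (fun q => q ∈ (xi t).natAbs.divisors)).card ≤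
          (xi t).natAbs.divisors.card :=
        Finset.card_le_card (fun q hq => (Finset.mem_filter.mp hq).2)
      exact_mod_cast this
  have h9 : (9 : ℝ) ^ j = 3 ^ j * 3 ^ j := by
    rw [← mul_pow]; norm_num
  calc _ ≤ (3 : ℝ) ^ (j + 1) * (3 ^ (j + 1) * B) + 3 ^ (j + 1) * ((7 * S : ℝ) ^ (2 * k) * D) := by
        apply add_le_add
        · exact mul_le_mul_of_nonneg_left (mul_le_mul_of_nonneg_right hcard hB0) (by positivity)
        · exact mul_le_mul_of_nonneg_left h6 (by positivity)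
    _ = _ := by rw [h9]; ring

lemma pow_combine (a b e c : ℝ) (k : ℕ) :
    2 * a ^ (2 * k) * b ^ (2 * k) * e ^ k * c ^ k = 2 * ((a * b) ^ 2 * e * c) ^ k := by
  rw [mul_pow, mul_pow, ← pow_mul, mul_pow]
  ring

/-- The bound with explicit exponent `1 + 6/r` to the base `3`. -/
lemma N_bound (r : ℕ) (hr : 1 ≤ r) : ∃ C : ℝ, ∀ j : ℕ,
    (N j : ℝ) ≤ C * (3 : ℝ) ^ ((1 + 6 / (r : ℝ)) * j) := by
  set m : ℕ := 7 * 3 ^ r with hm
  have hm1 : 1 ≤ m := by
    have : 1 ≤ 3 ^ r := Nat.one_le_pow _ _ (by norm_num)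
    omega
  have hmR : (1 : ℝ) ≤ m := by exact_mod_cast hm1
  set w : ℕ := 49 * m ^ 2 + 4 with hw
  have hw0 : (0 : ℝ) < w := by positivity
  obtain ⟨Cδ, hC1, hC⟩ := divisor_bound (1 / (w : ℝ)) (by positivity)
  refine ⟨18 + 2187 * Cδ, fun j => ?_⟩
  set k : ℕ := j / r + 1 with hk
  set S : ℕ := 49 * m ^ 2 * k with hS
  have hk1 : 1 ≤ k := Nat.le_add_left 1 _
  have hkR : (1 : ℝ) ≤ k := by exact_mod_cast hk1
  have hSR : (S : ℝ) = 49 * m ^ 2 * k := by rw [hS]; push_cast; ring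
  have hm2k : (1 : ℝ) ≤ m ^ 2 * k := by
    have : (1 : ℝ) ≤ m ^ 2 := one_le_pow₀ hmR
    nlinarith
  have hS49 : (49 : ℝ) ≤ S := by rw [hSR]; nlinarith
  have hS2 : 2 ≤ S := by
    have : (2 : ℝ) ≤ S := by linarith
    exact_mod_cast this
  -- the moment bound
  set l : ℝ := 1 / (49 * m) with hl
  have hl0 : 0 < l := by positivity
  have hl7 : l ≤ 1 / 7 := by
    rw [hl, div_le_div_iff₀ (by positivity) (by norm_num)]
    linarith
  have hM := M_bound l hl0 hl7 S k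
  have hexp : 49 * l ^ 2 * S = k := by
    rw [hSR, hl]; field_simp
  have hinv : 1 / l = 49 * m := by rw [hl, one_div_one_div]
  rw [hexp, hinv] at hM
  set B : ℝ := 2 * ((2 * k).factorial : ℝ) * (49 * m) ^ (2 * k) * exp k with hB
  have hB0 : 0 ≤ B := by positivity
  -- the divisor bound
  set D : ℝ := Cδ * (3 : ℝ) ^ (k : ℝ) with hD
  have hD0 : 0 ≤ D := by positivity
  have hDt : ∀ t : Fin (2 * k) → Fin S × Fin 4, xi t ≠ 0 →
      (((xi t).natAbs.divisors.card : ℕ) : ℝ) ≤ D := by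
    intro t ht
    refine (hC _ (Int.natAbs_ne_zero.mpr ht)).trans ?_
    rw [hD]
    apply mul_le_mul_of_nonneg_left _ (by linarith)
    have h1 : ((xi t).natAbs : ℝ) ≤ (3 : ℝ) ^ ((w : ℝ) * k) := by
      have h2 := abs_xi_le t
      have h3 : ((xi t).natAbs : ℤ) ≤ 3 ^ (w * k) := by
        rw [Int.natCast_natAbs]
        refine h2.trans ?_
        have h4 : w * k = 4 * k + S := by rw [hw, hS]; ring
        rw [h4, pow_add]
        apply mul_le_mul_of_nonneg_right _ (by positivity)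
        have h5 : (4 * k : ℤ) < 3 ^ (4 * k) := by
          exact_mod_cast Nat.lt_pow_self (by norm_num : 1 < 3) (n := 4 * k)
        push_cast
        linarith
      have h4 : (((xi t).natAbs : ℤ) : ℝ) ≤ ((3 ^ (w * k) : ℤ) : ℝ) := by exact_mod_cast h3
      have h5 : ((3 ^ (w * k) : ℤ) : ℝ) = (3 : ℝ) ^ ((w : ℝ) * k) := by
        push_cast
        rw [← Real.rpow_natCast]
        push_cast
        rfl
      rw [← h5]
      simpa using h4
    calc ((xi t).natAbs : ℝ) ^ (1 / (w : ℝ)) ≤ ((3 : ℝ) ^ ((w : ℝ) * k)) ^ (1 / (w : ℝ)) :=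
          Real.rpow_le_rpow (by positivity) h1 (by positivity)
      _ = (3 : ℝ) ^ (k : ℝ) := by
          rw [← Real.rpow_mul (by norm_num)]
          congr 1
          field_simp
  have hmain := main_ineq S k j hS2 B D hB0 hD0 hM hDt
  -- division by `(S - 2)^(2k)`
  have hS24 : 24 * (m ^ 2 * k : ℝ) ≤ (S : ℝ) - 2 := by rw [hSR]; nlinarith
  have hpos : (0 : ℝ) < ((S : ℝ) - 2) ^ (2 * k) := by
    apply pow_pos; linarith
  have h3r : (0 : ℝ) < (3 : ℝ) ^ j := by positivity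
  have hrk : j ≤ r * k := by
    rw [hk]
    have := Nat.div_add_mod j r
    have h2 := Nat.mod_lt j (by omega : r > 0)
    nlinarith
  -- first term
  have hT1 : B * 3 ^ j ≤ 2 * ((S : ℝ) - 2) ^ (2 * k) := by
    have h1 : ((2 * k).factorial : ℝ) ≤ (2 * k : ℝ) ^ (2 * k) := by
      exact_mod_cast Nat.factorial_le_pow (2 * k)
    have h2 : exp (k : ℝ) ≤ (2.7182818286 : ℝ) ^ k := by
      rw [← Real.exp_one_pow]
      exact pow_le_pow_left₀ (Real.exp_pos 1).le Real.exp_one_lt_d9.le k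
    have h3 : (3 : ℝ) ^ j ≤ (3 ^ r) ^ k := by
      rw [← pow_mul]
      exact pow_le_pow_right₀ (by norm_num) hrk
    have h4 : (0 : ℝ) < (3 : ℝ) ^ r := by positivity
    have h5 : (1 : ℝ) ≤ (3 : ℝ) ^ r := one_le_pow₀ (by norm_num)
    have h6 : (m : ℝ) = 7 * 3 ^ r := by rw [hm]; push_cast; ring
    calc B * 3 ^ j ≤ 2 * (2 * k : ℝ) ^ (2 * k) * (49 * m) ^ (2 * k) * (2.7182818286 : ℝ) ^ k *
          (3 ^ r) ^ k := by
          rw [hB]
          gcongr
      _ = 2 * (((2 * k) * (49 * m)) ^ 2 * 2.7182818286 * 3 ^ r) ^ k :=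
          pow_combine _ _ _ _ _
      _ ≤ 2 * ((24 * (m ^ 2 * k : ℝ)) ^ 2) ^ k := by
          apply mul_le_mul_of_nonneg_left _ (by norm_num)
          apply pow_le_pow_left₀ (by positivity)
          have h7 : (24 * (m ^ 2 * k : ℝ)) ^ 2 = (k * m) ^ 2 * (576 * m ^ 2) := by ring
          have h8 : ((2 * k) * (49 * m : ℝ)) ^ 2 * 2.7182818286 * 3 ^ r =
              (k * m) ^ 2 * (9604 * 2.7182818286 * 3 ^ r) := by ring
          rw [h7, h8]
          apply mul_le_mul_of_nonneg_left _ (by positivity)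
          rw [h6]
          nlinarith
      _ = 2 * (24 * (m ^ 2 * k : ℝ)) ^ (2 * k) := by rw [pow_mul]
      _ ≤ _ := by
          apply mul_le_mul_of_nonneg_left _ (by norm_num)
          exact pow_le_pow_left₀ (by positivity) hS24 _
  -- second term
  have hT2 : (7 * S : ℝ) ^ (2 * k) ≤ (3 : ℝ) ^ (5 * k) * ((S : ℝ) - 2) ^ (2 * k) := by
    have h1 : (7 * S : ℝ) ≤ 15 * ((S : ℝ) - 2) := by linarith
    calc (7 * S : ℝ) ^ (2 * k) ≤ (15 * ((S : ℝ) - 2)) ^ (2 * k) :=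
          pow_le_pow_left₀ (by positivity) h1 _
      _ = (15 ^ 2) ^ k * ((S : ℝ) - 2) ^ (2 * k) := by rw [mul_pow, pow_mul]
      _ ≤ (3 ^ 5) ^ k * ((S : ℝ) - 2) ^ (2 * k) := by
          apply mul_le_mul_of_nonneg_right _ hpos.le
          exact pow_le_pow_left₀ (by norm_num) (by norm_num) k
      _ = _ := by rw [← pow_mul]
  have h9 : (9 : ℝ) ^ j = 3 ^ j * 3 ^ j := by
    rw [← mul_pow]; norm_num
  have hfin : (N j : ℝ) ≤ 18 * 3 ^ j + 3 * 3 ^ j * ((3 : ℝ) ^ (5 * k) * D) := by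
    have h1 : ((S : ℝ) - 2) ^ (2 * k) * N j ≤ ((S : ℝ) - 2) ^ (2 * k) *
        (18 * 3 ^ j + 3 * 3 ^ j * ((3 : ℝ) ^ (5 * k) * D)) := by
      refine hmain.trans ?_
      have h2 : 9 * 9 ^ j * B ≤ ((S : ℝ) - 2) ^ (2 * k) * (18 * 3 ^ j) := by
        rw [h9]
        have := mul_le_mul_of_nonneg_left hT1 (by positivity : (0 : ℝ) ≤ 9 * 3 ^ j)
        linarith
      have h3 : 3 * 3 ^ j * ((7 * S : ℝ) ^ (2 * k) * D) ≤
          ((S : ℝ) - 2) ^ (2 * k) * (3 * 3 ^ j * ((3 : ℝ) ^ (5 * k) * D)) := by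
        have := mul_le_mul_of_nonneg_right hT2 (by positivity : (0 : ℝ) ≤ 3 * 3 ^ j * D)
        linarith
      linarith
    exact le_of_mul_le_mul_left h1 hpos
  -- conclusion
  have hkj : (k : ℝ) ≤ j / r + 1 := by
    rw [hk]; push_cast
    have : ((j / r : ℕ) : ℝ) ≤ (j : ℝ) / r := Nat.cast_div_le
    linarith
  have hrR : (0 : ℝ) < r := by exact_mod_cast hr
  have hx0 : (0 : ℝ) ≤ 6 / (r : ℝ) * j := by positivity
  have h10 : (3 : ℝ) ^ (5 * k) * D ≤ 729 * Cδ * (3 : ℝ) ^ (6 / (r : ℝ) * j) := by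
    have h1 : (3 : ℝ) ^ (5 * k) = (3 : ℝ) ^ ((5 * k : ℝ)) := by
      rw [← Real.rpow_natCast]; push_cast; rfl
    have h2 : (729 : ℝ) = (3 : ℝ) ^ (6 : ℝ) := by norm_num
    have h3 : (3 : ℝ) ^ (5 * k : ℝ) * (3 : ℝ) ^ (k : ℝ) ≤
        (3 : ℝ) ^ (6 : ℝ) * (3 : ℝ) ^ (6 / (r : ℝ) * j) := by
      rw [← Real.rpow_add (by norm_num), ← Real.rpow_add (by norm_num)]
      apply Real.rpow_le_rpow_of_exponent_le (by norm_num)
      have : 6 / (r : ℝ) * j = 6 * (j / r) := by ring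
      rw [this]
      linarith
    rw [h1, h2, hD]
    have := mul_le_mul_of_nonneg_left h3 (by linarith : (0 : ℝ) ≤ Cδ)
    linarith
  have h11 : (3 : ℝ) ^ ((1 + 6 / (r : ℝ)) * j) = 3 ^ j * (3 : ℝ) ^ (6 / (r : ℝ) * j) := by
    rw [add_mul, one_mul, Real.rpow_add (by norm_num), Real.rpow_natCast]
  have h12 : (1 : ℝ) ≤ (3 : ℝ) ^ (6 / (r : ℝ) * j) := Real.one_le_rpow (by norm_num) hx0
  rw [h11]
  have h13 := mul_le_mul_of_nonneg_left h10 (by positivity : (0 : ℝ) ≤ 3 * 3 ^ j)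
  have h14 := mul_le_mul_of_nonneg_left h12 (by positivity : (0 : ℝ) ≤ 18 * 3 ^ j)
  nlinarith

/-- Answer to Q1: every real `ς > log₂ 3 = 1.58…` is admissible, and `log₂ 3 < 2`. -/
theorem result : Real.logb 2 3 < 2 ∧ ∀ ς : ℝ, Real.logb 2 3 < ς →
    ∃ C : ℝ, ∀ j : ℕ, 1 ≤ j → (N j : ℝ) ≤ C * (2 : ℝ) ^ (ς * j) := by
  have hl2 : 0 < Real.log 2 := Real.log_pos one_lt_two
  have hl3 : 0 < Real.log 3 := Real.log_pos (by norm_num)
  constructor
  · rw [Real.logb_lt_iff_lt_rpow one_lt_two (by norm_num)]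
    norm_num
  · intro ς hς
    have h1 : Real.log 3 < ς * Real.log 2 := by
      rw [Real.logb, div_lt_iff₀ hl2] at hς
      exact hς
    obtain ⟨r, hr⟩ := exists_nat_gt (6 * Real.log 3 / (ς * Real.log 2 - Real.log 3))
    have hd : 0 < ς * Real.log 2 - Real.log 3 := by linarith
    have hr0 : (0 : ℝ) < r := lt_trans (by positivity) hr
    have hr1 : 1 ≤ r := by exact_mod_cast hr0
    obtain ⟨C, hC⟩ := N_bound r hr1
    refine ⟨|C|, fun j _ => (hC j).trans ?_⟩
    have h2 : (3 : ℝ) ^ ((1 + 6 / (r : ℝ)) * j) ≤ (2 : ℝ) ^ (ς * j) := by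
      rw [Real.rpow_def_of_pos (by norm_num), Real.rpow_def_of_pos (by norm_num)]
      apply Real.exp_le_exp.mpr
      rw [div_lt_iff₀ hd] at hr
      have h3 : Real.log 3 * (1 + 6 / r) ≤ Real.log 2 * ς := by
        have h4 : Real.log 3 * (1 + 6 / r) = Real.log 3 + 6 * Real.log 3 / r := by ring
        rw [h4]
        have h5 : 6 * Real.log 3 / r ≤ ς * Real.log 2 - Real.log 3 := by
          rw [div_le_iff₀ hr0]; linarith
        linarith
      calc Real.log 3 * ((1 + 6 / r) * j) = (Real.log 3 * (1 + 6 / r)) * j := by ring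
        _ ≤ (Real.log 2 * ς) * j := mul_le_mul_of_nonneg_right h3 (Nat.cast_nonneg _)
        _ = _ := by ring
    calc C * (3 : ℝ) ^ ((1 + 6 / (r : ℝ)) * j) ≤ |C| * (3 : ℝ) ^ ((1 + 6 / (r : ℝ)) * j) :=
          mul_le_mul_of_nonneg_right (le_abs_self C) (by positivity)
      _ ≤ _ := mul_le_mul_of_nonneg_left h2 (abs_nonneg _)

end Pool.Agent.Results.MP_0581eb_nt.CantorCount
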